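import Mathlib
import Pool.Agent.W_MP_daea50_lc.Main

/-!
# Minimal F-sigma realizations of aperiodic countable Borel equivalence relations

Every aperiodic countable Borel equivalence relation `E` on an uncountable standard Borel space is
Borel isomorphic to an equivalence relation `F` on a Polish space `Y` such that `F` is an
`F_σ` subset of `Y × Y` and every `F`-class is dense in `Y`. The proof is in
`Pool/Agent/W_MP_daea50_lc/Main.lean`.
-/

set_option autoImplicit false

open Set Topology MeasureTheory

namespace Pool.Agent.Results.MP_daea50_lc.MinimalFsigma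

universe u

/-- Every aperiodic countable Borel equivalence relation on an uncountable standard Borel space has
a topological realization that is both minimal and `F_σ`. -/
theorem result {X : Type u} [MeasurableSpace X] [StandardBorelSpace X] [Uncountable X]
    (E : X → X → Prop) (hE : Equivalence E)
    (hBorel : MeasurableSet {p : X × X | E p.1 p.2})
    (hcount : ∀ x, {y | E x y}.Countable)
    (haper : ∀ x, {y | E x y}.Infinite) :
    ∃ (Y : Type u) (_ : TopologicalSpace Y) (_ : PolishSpace Y)
      (_ : MeasurableSpace Y) (_ : BorelSpace Y)
      (F : Y → Y → Prop) (f : X ≃ᵐ Y),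
      Equivalence F ∧
      (∀ x x', E x x' ↔ F (f x) (f x')) ∧
      (∃ C : ℕ → Set (Y × Y), (∀ n, IsClosed (C n)) ∧ {p : Y × Y | F p.1 p.2} = ⋃ n, C n) ∧
      (∀ y, Dense {z | F y z}) :=
  Pool.Agent.W_MP_daea50_lc.exists_minimal_Fsigma E hE hBorel hcount haper

end Pool.Agent.Results.MP_daea50_lc.MinimalFsigma
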