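import Mathlib
import Pool.Agent.W_MP_daea50_h85.Final

/-!
# Minimal K-sigma realizations of non-smooth aperiodic countable Borel equivalence relations

Every non-smooth aperiodic countable Borel equivalence relation `E` is Borel isomorphic to an
equivalence relation `F` on a compact Polish space `Y` such that `F` is a countable union of compact
subsets of `Y × Y` and every `F`-class is dense in `Y`. The proof is in
`Pool/Agent/W_MP_daea50_h85/Final.lean`.
-/

set_option autoImplicit false

open Set Topology MeasureTheory

namespace Pool.Agent.Results.MP_daea50_lc.MinimalKsigma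

universe u

/-- Every non-smooth aperiodic countable Borel equivalence relation has a topological realization
that is both minimal and `K_σ`, on a compact space. -/
theorem result {X : Type u} [MeasurableSpace X] [StandardBorelSpace X]
    (E : X → X → Prop) (hE : Equivalence E)
    (hBorel : MeasurableSet {p : X × X | E p.1 p.2})
    (hcount : ∀ x, {y | E x y}.Countable)
    (haper : ∀ x, {y | E x y}.Infinite)
    (hns : ¬ ∃ T : Set X, MeasurableSet T ∧ ∀ x, ∃! y, y ∈ T ∧ E x y) :
    ∃ (Y : Type) (_ : TopologicalSpace Y) (_ : PolishSpace Y) (_ : CompactSpace Y)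
      (_ : MeasurableSpace Y) (_ : BorelSpace Y)
      (F : Y → Y → Prop) (f : X ≃ᵐ Y),
      Equivalence F ∧
      (∀ x x', E x x' ↔ F (f x) (f x')) ∧
      (∃ C : ℕ → Set (Y × Y), (∀ n, IsCompact (C n)) ∧ {p : Y × Y | F p.1 p.2} = ⋃ n, C n) ∧
      (∀ y, Dense {z | F y z}) :=
  Pool.Agent.W_MP_daea50_h85.exists_minimal_Ksigma E hE hBorel hcount haper hns

end Pool.Agent.Results.MP_daea50_lc.MinimalKsigma
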